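import Mathlib

/-!
Topological preliminaries for (F)-spaces: completeness of completely metrizable abelian groups
(Klee) and a closed graph theorem with separating space.
-/

set_option autoImplicit false
open TopologicalSpace Filter Topology Set

namespace Pool.Agent.Helper68_FAlg

section Klee

variable {G : Type*} [AddCommGroup G] [TopologicalSpace G] [IsTopologicalAddGroup G]

/-- Klee's theorem: a completely metrizable topological abelian group is (sequentially) complete
for its group uniformity. -/
theorem klee [IsCompletelyMetrizableSpace G] (S : ℕ → G)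
    (hS : ∀ U ∈ 𝓝 (0 : G), ∃ N, ∀ m ≥ N, ∀ n ≥ N, S m - S n ∈ U) :
    ∃ g, Tendsto S atTop (𝓝 g) := by
  letI := upgradeIsCompletelyMetrizable G
  let A : ℕ → Set G := fun n => {h : G | ∃ U ∈ 𝓝 (0 : G), ∀ p q : G,
    (∀ᶠ m in atTop, p - h - S m ∈ U) → (∀ᶠ m in atTop, q - h - S m ∈ U) →
      dist p q < 1 / ((n : ℝ) + 1)}
  have hopen : ∀ n, IsOpen (A n) := by
    intro n
    rw [isOpen_iff_mem_nhds]
    rintro h ⟨U, hU, hpq⟩
    obtain ⟨U', hU', hadd⟩ := exists_nhds_zero_half hU
    have h1 : {h' : G | h' - h ∈ U'} ∈ 𝓝 h := by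
      have : Tendsto (fun h' : G => h' - h) (𝓝 h) (𝓝 (h - h)) :=
        (continuous_id.sub continuous_const).tendsto h
      rw [sub_self] at this
      exact this hU'
    refine Filter.mem_of_superset h1 ?_
    intro h' hh'
    refine ⟨U', hU', ?_⟩
    intro p q hp hq
    apply hpq p q
    · filter_upwards [hp] with m hm
      have := hadd _ hm _ hh'
      have e : p - h' - S m + (h' - h) = p - h - S m := by abel
      rwa [e] at this
    · filter_upwards [hq] with m hm
      have := hadd _ hm _ hh'
      have e : q - h' - S m + (h' - h) = q - h - S m := by abel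
      rwa [e] at this
  have hdense : ∀ n, Dense (A n) := by
    intro n h0
    rw [mem_closure_iff_nhds]
    intro U hU
    have hU0 : {u : G | h0 + u ∈ U} ∈ 𝓝 (0 : G) := by
      have : Tendsto (fun u : G => h0 + u) (𝓝 0) (𝓝 (h0 + 0)) :=
        (continuous_const.add continuous_id).tendsto 0
      rw [add_zero] at this
      exact this hU
    obtain ⟨N0, hN0⟩ := hS _ hU0
    set p0 := h0 + S N0 with hp0
    have hpos : (0 : ℝ) < 1 / (2 * ((n : ℝ) + 1)) := by positivity
    have hU1 : {u : G | p0 + u ∈ Metric.ball p0 (1 / (2 * ((n : ℝ) + 1)))} ∈ 𝓝 (0 : G) := by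
      have : Tendsto (fun u : G => p0 + u) (𝓝 0) (𝓝 (p0 + 0)) :=
        (continuous_const.add continuous_id).tendsto 0
      rw [add_zero] at this
      exact this (Metric.ball_mem_nhds p0 hpos)
    obtain ⟨U2, hU2, hadd⟩ := exists_nhds_zero_half hU1
    obtain ⟨N1, hN1⟩ := hS _ hU2
    set N2 := max N0 N1 with hN2
    have key : ∀ p : G, (∀ᶠ m in atTop, p - (p0 - S N2) - S m ∈ U2) →
        dist p p0 < 1 / (2 * ((n : ℝ) + 1)) := by
      intro p hp
      obtain ⟨m, hm1, hm2⟩ := (hp.and (eventually_ge_atTop N2)).exists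
      have h2 := hN1 m (le_trans (le_max_right _ _) hm2) N2 (le_max_right _ _)
      have h3 := hadd _ hm1 _ h2
      have e : p0 + (p - (p0 - S N2) - S m + (S m - S N2)) = p := by abel
      have h4 : p0 + (p - (p0 - S N2) - S m + (S m - S N2)) ∈
        Metric.ball p0 (1 / (2 * ((n : ℝ) + 1))) := h3
      rw [e] at h4
      exact h4
    refine ⟨p0 - S N2, ?_, U2, hU2, ?_⟩
    · have h1 := hN0 N0 le_rfl N2 (le_max_left _ _)
      have e : p0 - S N2 = h0 + (S N0 - S N2) := by rw [hp0]; abel
      rw [e]
      exact h1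
    · intro p q hp hq
      have h1 := key p hp
      have h2 := key q hq
      calc dist p q ≤ dist p p0 + dist q p0 := dist_triangle_right _ _ _
        _ < 1 / (2 * ((n : ℝ) + 1)) + 1 / (2 * ((n : ℝ) + 1)) := add_lt_add h1 h2
        _ = 1 / ((n : ℝ) + 1) := by field_simp; norm_num
  have hD := dense_iInter_of_isOpen_nat hopen hdense
  obtain ⟨h, hh⟩ := hD.nonempty
  rw [mem_iInter] at hh
  have hc : CauchySeq (fun j => h + S j) := by
    rw [Metric.cauchySeq_iff]
    intro ε hε
    obtain ⟨n, hn⟩ := exists_nat_one_div_lt hε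
    obtain ⟨U, hU, hpq⟩ := hh n
    obtain ⟨N, hN⟩ := hS U hU
    refine ⟨N, fun m hm k hk => lt_trans (hpq _ _ ?_ ?_) hn⟩
    · filter_upwards [eventually_ge_atTop N] with j hj
      have := hN m hm j hj
      have e : h + S m - h - S j = S m - S j := by abel
      rwa [e]
    · filter_upwards [eventually_ge_atTop N] with j hj
      have := hN k hk j hj
      have e : h + S k - h - S j = S k - S j := by abel
      rwa [e]
  obtain ⟨p, hp⟩ := cauchySeq_tendsto_of_complete hc
  refine ⟨p - h, ?_⟩
  have := hp.sub_const h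
  simpa using this

end Klee

end Pool.Agent.Helper68_FAlg
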