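import Mathlib
import Pool.Agent.Helper68_FAlg.Basic

/-!
Closed graph theorem with separating space for (F)-spaces.
-/

set_option autoImplicit false
open TopologicalSpace Filter Topology Set

namespace Pool.Agent.Helper68_FAlg

section Bas

variable {G : Type*} [AddCommGroup G] [TopologicalSpace G] [IsTopologicalAddGroup G]

/-- A symmetric antitone basis of neighbourhoods of `0` with `V (n+1) + V (n+1) ⊆ V n`. -/
structure SymBasis (V : ℕ → Set G) : Prop where
  basis : (𝓝 (0 : G)).HasAntitoneBasis V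
  neg : ∀ n, ∀ x ∈ V n, -x ∈ V n
  add : ∀ n, ∀ x ∈ V (n + 1), ∀ y ∈ V (n + 1), x + y ∈ V n

theorem exists_symBasis [FirstCountableTopology G] : ∃ V : ℕ → Set G, SymBasis V := by
  obtain ⟨u, hu, hadd⟩ := IsTopologicalAddGroup.exists_antitone_basis_nhds_zero G
  have hmem : ∀ n, u n ∈ 𝓝 (0 : G) := fun n => hu.toHasBasis.mem_of_mem trivial
  have hneg : ∀ n, {x : G | -x ∈ u n} ∈ 𝓝 (0 : G) := by
    intro n
    have : Tendsto (fun x : G => -x) (𝓝 0) (𝓝 (-0)) := continuous_neg.tendsto 0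
    rw [neg_zero] at this
    exact this (hmem n)
  refine ⟨fun n => u n ∩ {x | -x ∈ u n}, ⟨⟨⟨fun t => ?_⟩, ?_⟩, ?_, ?_⟩⟩
  · constructor
    · intro ht
      obtain ⟨n, -, hn⟩ := hu.toHasBasis.mem_iff.mp ht
      exact ⟨n, trivial, fun x hx => hn hx.1⟩
    · rintro ⟨n, -, hn⟩
      exact Filter.mem_of_superset (Filter.inter_mem (hmem n) (hneg n)) hn
  · intro m n hmn x hx
    exact ⟨hu.antitone hmn hx.1, hu.antitone hmn hx.2⟩
  · intro n x hx
    refine ⟨hx.2, ?_⟩
    simpa using hx.1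
  · intro n x hx y hy
    refine ⟨hadd n ⟨x, hx.1, y, hy.1, rfl⟩, ?_⟩
    have : -x + -y ∈ u n := hadd n ⟨-x, hx.2, -y, hy.2, rfl⟩
    have e : -(x + y) = -x + -y := by abel
    change -(x + y) ∈ u n
    rwa [e]

namespace SymBasis

variable {V : ℕ → Set G} (h : SymBasis V)
include h

theorem mem_nhds (n : ℕ) : V n ∈ 𝓝 (0 : G) := h.basis.toHasBasis.mem_of_mem trivial

theorem zero_mem (n : ℕ) : (0 : G) ∈ V n := mem_of_mem_nhds (h.mem_nhds n)

theorem anti {m n : ℕ} (hmn : m ≤ n) : V n ⊆ V m := h.basis.antitone hmn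

theorem sub (n : ℕ) (x : G) (hx : x ∈ V (n + 1)) (y : G) (hy : y ∈ V (n + 1)) : x - y ∈ V n := by
  rw [sub_eq_add_neg]
  exact h.add n x hx _ (h.neg _ _ hy)

theorem exists_subset {U : Set G} (hU : U ∈ 𝓝 (0 : G)) : ∃ n, V n ⊆ U := by
  obtain ⟨n, -, hn⟩ := h.basis.toHasBasis.mem_iff.mp hU
  exact ⟨n, hn⟩

theorem sum_Ico (u : ℕ → G) (k : ℕ) (hu : ∀ i, u i ∈ V (k + i + 1)) (l : ℕ) :
    ∀ m, ∑ i ∈ Finset.range l, u (m + i) ∈ V (k + m) := by
  induction l with
  | zero => intro m; simpa using h.zero_mem _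
  | succ l ih =>
    intro m
    rw [Finset.sum_range_succ']
    have h1 := ih (m + 1)
    have e : ∀ i, m + 1 + i = m + (i + 1) := fun i => by ring
    simp only [e] at h1
    have e2 : k + (m + 1) = k + m + 1 := by ring
    rw [e2] at h1
    have h2 := hu m
    exact h.add _ _ h1 _ h2

/-- limits of elements eventually in `V (n+1)` are in `V n`. -/
theorem lim_mem {ι : Type*} {l : Filter ι} [l.NeBot] {f : ι → G} {g : G} {n : ℕ}
    (hf : Tendsto f l (𝓝 g)) (hm : ∀ᶠ i in l, f i ∈ V (n + 1)) : g ∈ V n := by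
  have h1 : Tendsto (fun i => g - f i) l (𝓝 (g - g)) := tendsto_const_nhds.sub hf
  rw [sub_self] at h1
  obtain ⟨i, hi1, hi2⟩ := (hm.and (h1 (h.mem_nhds (n + 1)))).exists
  have := h.add n _ hi1 _ hi2
  simpa using this

theorem exists_sum [IsCompletelyMetrizableSpace G] (u : ℕ → G) (k : ℕ)
    (hu : ∀ i, u i ∈ V (k + i + 2)) :
    ∃ s, Tendsto (fun n => ∑ i ∈ Finset.range n, u i) atTop (𝓝 s) ∧
      ∀ m, s - ∑ i ∈ Finset.range m, u i ∈ V (k + m) := by
  have hs := h.sum_Ico u (k + 1) (fun i => by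
    have e : k + 1 + i + 1 = k + i + 2 := by ring
    rw [e]; exact hu i)
  have key : ∀ m n, m ≤ n → ∑ i ∈ Finset.range n, u i - ∑ i ∈ Finset.range m, u i
      ∈ V (k + m + 1) := by
    intro m n hmn
    obtain ⟨l, rfl⟩ := Nat.exists_eq_add_of_le hmn
    rw [Finset.sum_range_add]
    have := hs l m
    have e : k + 1 + m = k + m + 1 := by ring
    rw [e] at this
    simpa using this
  obtain ⟨s, hs'⟩ := klee (fun n => ∑ i ∈ Finset.range n, u i) (by
    intro U hU
    obtain ⟨N, hN⟩ := h.exists_subset hU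
    refine ⟨N, fun m hm n hn => ?_⟩
    rcases le_total m n with hmn | hmn
    · have h1 := h.neg _ _ (key m n hmn)
      rw [neg_sub] at h1
      exact hN (h.anti (by omega) h1)
    · exact hN (h.anti (by omega) (key n m hmn)))
  refine ⟨s, hs', fun m => ?_⟩
  have h1 : Tendsto (fun n => ∑ i ∈ Finset.range n, u i - ∑ i ∈ Finset.range m, u i) atTop
      (𝓝 (s - ∑ i ∈ Finset.range m, u i)) := hs'.sub_const _
  refine h.lim_mem h1 ?_
  filter_upwards [eventually_ge_atTop m] with n hn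
  exact key m n hn

end SymBasis

end Bas

section CG

variable {E F : Type*} [AddCommGroup E] [Module ℝ E] [TopologicalSpace E]
  [IsTopologicalAddGroup E] [ContinuousSMul ℝ E] [BaireSpace E] [FirstCountableTopology E]
  [AddCommGroup F] [Module ℝ F] [TopologicalSpace F] [IsTopologicalAddGroup F]
  [ContinuousSMul ℝ F]

/-- `s` belongs to the separating space of `T`. -/
def Sep {E F : Type*} [AddCommGroup E] [TopologicalSpace E] [AddCommGroup F] [TopologicalSpace F]
    (T : E → F) (s : F) : Prop :=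
  ∀ U ∈ 𝓝 (0 : E), ∀ U' ∈ 𝓝 (0 : F), ∃ x ∈ U, T x - s ∈ U'

omit [FirstCountableTopology E] in
theorem baire_part (T : E →ₗ[ℝ] F) {U : Set F} (hU : U ∈ 𝓝 (0 : F)) :
    closure (T ⁻¹' U) ∈ 𝓝 (0 : E) := by
  obtain ⟨U1, hU1, hsub⟩ := exists_nhds_half_neg hU
  set C := closure (T ⁻¹' U1) with hC
  have hclosed : ∀ k : ℕ, IsClosed {x : E | (1 / ((k : ℝ) + 1)) • x ∈ C} := fun k =>
    isClosed_closure.preimage (continuous_const_smul _)
  have hunion : (⋃ k : ℕ, {x : E | (1 / ((k : ℝ) + 1)) • x ∈ C}) = univ := by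
    rw [eq_univ_iff_forall]
    intro x
    rw [mem_iUnion]
    have h1 : Tendsto (fun k : ℕ => (1 / ((k : ℝ) + 1)) • T x) atTop (𝓝 ((0 : ℝ) • T x)) :=
      tendsto_one_div_add_atTop_nhds_zero_nat.smul_const _
    rw [zero_smul] at h1
    obtain ⟨k, hk⟩ := (h1.eventually_mem hU1).exists
    refine ⟨k, subset_closure ?_⟩
    change T _ ∈ U1
    rw [map_smul]
    exact hk
  obtain ⟨k, x0, hx0⟩ := nonempty_interior_of_iUnion_of_closed hclosed hunion
  have hc : (1 / ((k : ℝ) + 1)) ≠ 0 := by positivity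
  set c := (1 / ((k : ℝ) + 1)) with hcdef
  have h1 : {x : E | c • x ∈ C} ∈ 𝓝 x0 := mem_interior_iff_mem_nhds.mp hx0
  have h2 : {z : E | c • x0 + z ∈ C} ∈ 𝓝 (0 : E) := by
    have h3 : Tendsto (fun z : E => x0 + c⁻¹ • z) (𝓝 0) (𝓝 (x0 + c⁻¹ • (0 : E))) :=
      (continuous_const.add (continuous_const_smul _)).tendsto 0
    rw [smul_zero, add_zero] at h3
    refine Filter.mem_of_superset (h3 h1) ?_
    intro z hz
    have h4 : c • (x0 + c⁻¹ • z) ∈ C := hz
    rw [smul_add, smul_smul, mul_inv_cancel₀ hc, one_smul] at h4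
    exact h4
  refine Filter.mem_of_superset h2 ?_
  intro z hz
  have hz' : c • x0 + z ∈ C := hz
  have h0 : c • x0 ∈ C := by
    have : x0 ∈ {x : E | c • x ∈ C} := mem_of_mem_nhds h1
    exact this
  have h5 : (c • x0 + z) - c • x0 ∈ closure (T ⁻¹' U) :=
    map_mem_closure₂ continuous_sub hz' h0 (fun a ha b hb => by
      change T (a - b) ∈ U
      rw [map_sub]
      exact hsub _ ha _ hb)
  simpa using h5

theorem closed_graph_sep [IsCompletelyMetrizableSpace F] {V : ℕ → Set F} (hV : SymBasis V)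
    (T : E →ₗ[ℝ] F) (n : ℕ) :
    ∃ W ∈ 𝓝 (0 : E), ∀ x ∈ W, ∃ y ∈ V n, Sep T (T x - y) := by
  obtain ⟨O, hO⟩ := (𝓝 (0 : E)).exists_antitone_basis
  let C : ℕ → Set E := fun j => closure (T ⁻¹' (V (n + j + 2)))
  have hC : ∀ j, C j ∈ 𝓝 (0 : E) := fun j => baire_part T (hV.mem_nhds _)
  refine ⟨C 0, hC 0, ?_⟩
  intro x hx
  have step : ∀ j : ℕ, ∀ x : E, x ∈ C j → ∃ e : E, T e ∈ V (n + j + 2) ∧ x - e ∈ C (j + 1) ∧
      x - e ∈ O j := by
    intro j x hx
    have hx' : x ∈ closure (T ⁻¹' (V (n + j + 2))) := hx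
    rw [mem_closure_iff_nhds] at hx'
    have h1 : {e : E | x - e ∈ C (j + 1) ∩ O j} ∈ 𝓝 x := by
      have : Tendsto (fun e : E => x - e) (𝓝 x) (𝓝 (x - x)) :=
        (continuous_const.sub continuous_id).tendsto x
      rw [sub_self] at this
      exact this (Filter.inter_mem (hC (j + 1)) (hO.toHasBasis.mem_of_mem trivial))
    obtain ⟨e, he1, he2⟩ := hx' _ h1
    exact ⟨e, he2, he1.1, he1.2⟩
  choose f hf1 hf2 hf3 using step
  let seq : (j : ℕ) → {x : E // x ∈ C j} := fun j =>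
    Nat.rec ⟨x, hx⟩ (fun j y => ⟨y.1 - f j y.1 y.2, hf2 j y.1 y.2⟩) j
  let e : ℕ → E := fun j => f j (seq j).1 (seq j).2
  have hseq : ∀ j, (seq (j + 1)).1 = (seq j).1 - e j := fun j => rfl
  have hsum : ∀ j, (seq j).1 = x - ∑ i ∈ Finset.range j, e i := by
    intro j
    induction j with
    | zero => simp [seq]
    | succ j ih => rw [hseq, ih, Finset.sum_range_succ]; abel
  obtain ⟨y, hy1, hy2⟩ := hV.exists_sum (fun i => T (e i)) n (fun i => hf1 i _ _)
  refine ⟨y, ?_, ?_⟩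
  · simpa using hy2 0
  · intro U hU U' hU'
    obtain ⟨N, -, hN⟩ := hO.toHasBasis.mem_iff.mp hU
    have h1 : Tendsto (fun j => y - ∑ i ∈ Finset.range j, T (e i)) atTop (𝓝 (y - y)) :=
      tendsto_const_nhds.sub hy1
    rw [sub_self] at h1
    obtain ⟨M, hM⟩ := (h1.eventually_mem hU').exists_forall_of_atTop
    set j := max N M with hj
    refine ⟨(seq (j + 1)).1, ?_, ?_⟩
    · apply hN
      apply hO.antitone (le_max_left N M)
      exact hf3 j _ _
    · rw [hsum, map_sub, map_sum]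
      have h2 := hM (j + 1) (le_trans (le_max_right N M) (Nat.le_succ _))
      have e1 : T x - ∑ i ∈ Finset.range (j + 1), T (e i) - (T x - y) =
        y - ∑ i ∈ Finset.range (j + 1), T (e i) := by abel
      rw [e1]
      exact h2

theorem continuous_of_sep_zero [IsCompletelyMetrizableSpace F] (T : E →ₗ[ℝ] F)
    (hT : ∀ s, Sep T s → s = 0) : Continuous T := by
  obtain ⟨V, hV⟩ := exists_symBasis (G := F)
  apply continuous_of_continuousAt_zero T
  rw [ContinuousAt, map_zero]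
  intro U hU
  obtain ⟨n, hn⟩ := hV.exists_subset hU
  obtain ⟨W, hW, h⟩ := closed_graph_sep hV T n
  rw [Filter.mem_map]
  refine Filter.mem_of_superset hW ?_
  intro x hx
  obtain ⟨y, hy, hs⟩ := h x hx
  have := hT _ hs
  rw [sub_eq_zero] at this
  change T x ∈ U
  rw [this]
  exact hn hy

end CG

end Pool.Agent.Helper68_FAlg
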