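import Mathlib
import Pool.Agent.Helper68_FAlg.CG

/-!
A topology-free interface `FB` for (F)-algebra topologies, and the main lemma on the separating
ideal of two (F)-algebra topologies.
-/

set_option autoImplicit false
open TopologicalSpace Filter Topology Set

namespace Pool.Agent.Helper68_FAlg

/-- The properties of a basis of neighbourhoods of `0` of an (F)-algebra which are used. -/
structure FB {S : Type*} [CommRing S] [Algebra ℂ S] (V : ℕ → Set S) : Prop where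
  zero : ∀ n, (0 : S) ∈ V n
  anti : ∀ m n, m ≤ n → V n ⊆ V m
  neg : ∀ n, ∀ x ∈ V n, -x ∈ V n
  add : ∀ n, ∀ x ∈ V (n + 1), ∀ y ∈ V (n + 1), x + y ∈ V n
  haus : ∀ x, (∀ n, x ∈ V n) → x = 0
  mul : ∀ (a : S) n, ∃ m, ∀ x ∈ V m, a * x ∈ V n
  smul : ∀ (x : S) n, ∃ δ > (0 : ℝ), ∀ c : ℂ, ‖c‖ < δ → c • x ∈ V n
  sum : ∀ (u : ℕ → S) k, (∀ i, u i ∈ V (k + i + 2)) →
    ∃ s, ∀ m, s - ∑ i ∈ Finset.range m, u i ∈ V (k + m)
  cg : ∀ (T : (ℕ → ℂ) →ₗ[ℂ] S) n, ∃ N, ∀ c : ℕ → ℂ, (∀ i < N, c i = 0) →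
    ∃ y ∈ V n, ∀ m n' (δ : ℝ), 0 < δ → ∃ c' : ℕ → ℂ, (∀ i < m, ‖c' i‖ < δ) ∧
      T c' - (T c - y) ∈ V n'

theorem SymBasis.toFB {S : Type*} [CommRing S] [Algebra ℂ S] [TopologicalSpace S]
    [IsTopologicalRing S] [ContinuousSMul ℂ S] [IsCompletelyMetrizableSpace S]
    {V : ℕ → Set S} (h : SymBasis V) : FB V where
  zero := h.zero_mem
  anti := fun m n hmn => h.anti hmn
  neg := h.neg
  add := h.add
  haus := by
    intro x hx
    by_contra hne
    have h1 : {x}ᶜ ∈ 𝓝 (0 : S) := isOpen_compl_singleton.mem_nhds (by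
      simp only [mem_compl_iff, mem_singleton_iff]
      exact fun h => hne h.symm)
    obtain ⟨n, hn⟩ := h.exists_subset h1
    exact hn (hx n) rfl
  mul := by
    intro a n
    have h1 : Tendsto (fun x : S => a * x) (𝓝 0) (𝓝 (a * 0)) :=
      (continuous_const.mul continuous_id).tendsto 0
    rw [mul_zero] at h1
    obtain ⟨m, hm⟩ := h.exists_subset (h1.eventually_mem (h.mem_nhds n))
    exact ⟨m, fun x hx => hm hx⟩
  smul := by
    intro x n
    have h1 : Tendsto (fun c : ℂ => c • x) (𝓝 0) (𝓝 ((0 : ℂ) • x)) :=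
      (continuous_id.smul continuous_const).tendsto 0
    rw [zero_smul] at h1
    obtain ⟨δ, hδ, hs⟩ := Metric.mem_nhds_iff.mp (h1.eventually_mem (h.mem_nhds n))
    refine ⟨δ, hδ, fun c hc => ?_⟩
    apply hs
    simpa using hc
  sum := by
    intro u k hu
    obtain ⟨s, -, hs⟩ := h.exists_sum u k hu
    exact ⟨s, hs⟩
  cg := by
    intro T n
    have hcs : ContinuousSMul ℝ S := by
      constructor
      have h1 : Continuous (fun p : ℝ × S => ((p.1 : ℂ)) • p.2) :=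
        (Complex.continuous_ofReal.comp continuous_fst).smul continuous_snd
      exact h1
    obtain ⟨W, hW, hT⟩ := closed_graph_sep h (T.restrictScalars ℝ) n
    -- the neighbourhood `W` contains all sequences vanishing on `i < N`
    have hW' : W ∈ Filter.pi (fun _ : ℕ => 𝓝 (0 : ℂ)) := by
      rw [← nhds_pi]
      exact hW
    obtain ⟨I, hI, t, ht, hts⟩ := Filter.mem_pi.mp hW'
    obtain ⟨N, hN⟩ := hI.bddAbove
    refine ⟨N + 1, fun c hc => ?_⟩
    have hcW : c ∈ W := by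
      apply hts
      intro i hi
      have : c i = 0 := hc i (by have := hN hi; omega)
      rw [this]
      exact mem_of_mem_nhds (ht i)
    obtain ⟨y, hy, hs⟩ := hT c hcW
    refine ⟨y, hy, fun m n' δ hδ => ?_⟩
    have hU : {c' : ℕ → ℂ | ∀ i < m, ‖c' i‖ < δ} ∈ 𝓝 (0 : ℕ → ℂ) := by
      rw [nhds_pi, Filter.mem_pi]
      refine ⟨Set.Iio m, Set.finite_Iio m, fun _ => Metric.ball 0 δ, fun i =>
        Metric.ball_mem_nhds _ hδ, ?_⟩
      intro c' hc' i hi
      have := hc' i hi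
      simpa using this
    obtain ⟨c', hc', hc2⟩ := hs _ hU _ (h.mem_nhds n')
    exact ⟨c', hc', hc2⟩

section Alg

variable {S : Type*} [CommRing S] [Algebra ℂ S]

namespace FB

variable {V : ℕ → Set S} (h : FB V)
include h

theorem sub (n : ℕ) (x : S) (hx : x ∈ V (n + 1)) (y : S) (hy : y ∈ V (n + 1)) : x - y ∈ V n := by
  rw [sub_eq_add_neg]
  exact h.add n x hx _ (h.neg _ _ hy)

theorem mul_fin (x : S) (n k : ℕ) : ∃ m, ∀ y ∈ V m, ∀ j ≤ k, x ^ j * y ∈ V n := by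
  induction k with
  | zero =>
    refine ⟨n, fun y hy j hj => ?_⟩
    obtain rfl : j = 0 := by omega
    simpa using hy
  | succ k ih =>
    obtain ⟨m, hm⟩ := ih
    obtain ⟨m', hm'⟩ := h.mul (x ^ (k + 1)) n
    refine ⟨max m m', fun y hy j hj => ?_⟩
    rcases Nat.lt_or_ge j (k + 1) with hj' | hj'
    · exact hm y (h.anti _ _ (le_max_left _ _) hy) j (by omega)
    · obtain rfl : j = k + 1 := by omega
      exact hm' y (h.anti _ _ (le_max_right _ _) hy)

theorem series (x : S) (u : ℕ → S) (k : ℕ)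
    (hu : ∀ i, ∀ j ≤ i, x ^ j * u i ∈ V (k + i + 2)) :
    ∃ r : ℕ → S, (∀ m, r m = u m + x * r (m + 1)) ∧ ∀ m, r m ∈ V k := by
  have h1 : ∀ m, ∃ s, ∀ L, s - ∑ l ∈ Finset.range L, x ^ l * u (m + l) ∈ V (k + L) := by
    intro m
    refine h.sum (fun l => x ^ l * u (m + l)) k (fun l => ?_)
    exact h.anti _ _ (by omega) (hu (m + l) l (by omega))
  choose r hr using h1
  refine ⟨r, fun m => ?_, fun m => by simpa using hr m 0⟩
  rw [← sub_eq_zero]
  apply h.haus
  intro n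
  obtain ⟨m', hm'⟩ := h.mul x (n + 1)
  set L := max (n + 1) m' with hL
  have h2 := hr m (L + 1)
  have h3 := hr (m + 1) L
  have h4 : x * (r (m + 1) - ∑ l ∈ Finset.range L, x ^ l * u (m + 1 + l)) ∈ V (n + 1) :=
    hm' _ (h.anti _ _ (by omega) h3)
  have h5 : r m - ∑ l ∈ Finset.range (L + 1), x ^ l * u (m + l) ∈ V (n + 1) :=
    h.anti _ _ (by omega) h2
  have h6 := h.sub n _ h5 _ h4
  have e : r m - (u m + x * r (m + 1)) = r m - ∑ l ∈ Finset.range (L + 1), x ^ l * u (m + l) -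
      x * (r (m + 1) - ∑ l ∈ Finset.range L, x ^ l * u (m + 1 + l)) := by
    rw [Finset.sum_range_succ', mul_sub, Finset.mul_sum]
    have e1 : ∀ l, x * (x ^ l * u (m + 1 + l)) = x ^ (l + 1) * u (m + (l + 1)) := by
      intro l
      rw [pow_succ]
      have : m + 1 + l = m + (l + 1) := by ring
      rw [this]
      ring
    simp only [e1]
    simp
    ring
  rw [e]
  exact h6

theorem sum_small (w : ℕ → S) (m : ℕ) : ∀ n, ∃ δ > (0 : ℝ), ∀ c : ℕ → ℂ, (∀ i < m, ‖c i‖ < δ) →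
    ∑ i ∈ Finset.range m, c i • w i ∈ V n := by
  induction m with
  | zero => exact fun n => ⟨1, one_pos, fun c _ => by simpa using h.zero n⟩
  | succ m ih =>
    intro n
    obtain ⟨δ, hδ, h1⟩ := ih (n + 1)
    obtain ⟨δ', hδ', h2⟩ := h.smul (w m) (n + 1)
    refine ⟨min δ δ', lt_min hδ hδ', fun c hc => ?_⟩
    rw [Finset.sum_range_succ]
    refine h.add n _ (h1 c fun i hi => ?_) _ (h2 _ ?_)
    · exact lt_of_lt_of_le (hc i (by omega)) (min_le_left _ _)
    · exact lt_of_lt_of_le (hc m (by omega)) (min_le_right _ _)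

end FB

theorem rec_uniq {x : S} (hx : ∀ y, (∀ m, x ^ m ∣ y) → y = 0) {s v v' : ℕ → S}
    (hv : ∀ n, v n = s n + x * v (n + 1)) (hv' : ∀ n, v' n = s n + x * v' (n + 1)) (n : ℕ) :
    v n = v' n := by
  rw [← sub_eq_zero]
  apply hx
  intro m
  have h1 : ∀ m n, v n - v' n = x ^ m * (v (n + m) - v' (n + m)) := by
    intro m
    induction m with
    | zero => intro n; simp
    | succ m ih =>
      intro n
      rw [ih n, hv (n + m), hv' (n + m), pow_succ]
      have : n + (m + 1) = n + m + 1 := by ring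
      rw [this]
      ring
  exact ⟨_, h1 m n⟩

/-- The separating ideal of two topologies (given by bases of neighbourhoods of zero). -/
def Sp {V1 V2 : ℕ → Set S} (h1 : FB V1) (h2 : FB V2) : Ideal S where
  carrier := {s | ∀ n m, ∃ a ∈ V2 n, a - s ∈ V1 m}
  zero_mem' := fun n m => ⟨0, h2.zero n, by simpa using h1.zero m⟩
  add_mem' := by
    intro s t hs ht n m
    obtain ⟨a, ha, ha'⟩ := hs (n + 1) (m + 1)
    obtain ⟨b, hb, hb'⟩ := ht (n + 1) (m + 1)
    refine ⟨a + b, h2.add _ _ ha _ hb, ?_⟩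
    have := h1.add _ _ ha' _ hb'
    have e : a + b - (s + t) = a - s + (b - t) := by ring
    rwa [e]
  smul_mem' := by
    intro c s hs n m
    obtain ⟨n', hn'⟩ := h2.mul c n
    obtain ⟨m', hm'⟩ := h1.mul c m
    obtain ⟨a, ha, ha'⟩ := hs n' m'
    refine ⟨c * a, hn' _ ha, ?_⟩
    have := hm' _ ha'
    rw [mul_sub] at this
    simpa using this

theorem mem_Sp {V1 V2 : ℕ → Set S} (h1 : FB V1) (h2 : FB V2) (s : S) :
    s ∈ Sp h1 h2 ↔ ∀ n m, ∃ a ∈ V2 n, a - s ∈ V1 m := Iff.rfl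

theorem fs0 {V1 V2 : ℕ → Set S} (h1 : FB V1) (h2 : FB V2) (x : S) (s : ℕ → S)
    (hs : ∀ n, s n ∈ Sp h1 h2) (k1 k2 : ℕ) :
    ∃ v : ℕ → S, (∀ n, v n = s n + x * v (n + 1)) ∧ ∃ z ∈ V2 k2, z - v 0 ∈ V1 k1 := by
  have h3 : ∀ i, ∃ a : S, (∀ j ≤ i, x ^ j * a ∈ V2 (k2 + i + 2)) ∧
      ∀ j ≤ i, x ^ j * (a - s i) ∈ V1 (k1 + i + 2) := by
    intro i
    obtain ⟨m2, hm2⟩ := h2.mul_fin x (k2 + i + 2) i
    obtain ⟨m1, hm1⟩ := h1.mul_fin x (k1 + i + 2) i
    obtain ⟨a, ha, ha'⟩ := hs i m2 m1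
    exact ⟨a, hm2 a ha, hm1 _ ha'⟩
  choose a ha2 ha1 using h3
  obtain ⟨z, hz, hz'⟩ := h2.series x a k2 ha2
  obtain ⟨w, hw, hw'⟩ := h1.series x (fun i => a i - s i) k1 ha1
  refine ⟨fun n => z n - w n, fun n => ?_, z 0, hz' 0, ?_⟩
  · change z n - w n = s n + x * (z (n + 1) - w (n + 1))
    rw [hz n, hw n]; ring
  · simpa using hw' 0

theorem fs {V1 V2 : ℕ → Set S} (h1 : FB V1) (h2 : FB V2) {x : S}
    (hx : ∀ y, (∀ m, x ^ m ∣ y) → y = 0) (s : ℕ → S) (hs : ∀ n, s n ∈ Sp h1 h2) :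
    ∃ v : ℕ → S, (∀ n, v n ∈ Sp h1 h2) ∧ ∀ n, v n = s n + x * v (n + 1) := by
  obtain ⟨v, hv, -⟩ := fs0 h1 h2 x s hs 0 0
  refine ⟨v, fun n => ?_, hv⟩
  intro k2 k1
  obtain ⟨v', hv', z, hz, hz'⟩ := fs0 h1 h2 x (fun i => s (n + i)) (fun i => hs _) k1 k2
  refine ⟨z, hz, ?_⟩
  have := rec_uniq hx (s := fun i => s (n + i)) (v := fun i => v (n + i)) (v' := v')
    (fun i => hv (n + i)) hv' 0
  simp only [add_zero] at this
  rwa [this]

/-- Main lemma. -/
theorem FB.main {V : ℕ → Set S} (h : FB V) (I : Ideal S) {x : S}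
    (hx : ∀ y, (∀ m, x ^ m ∣ y) → y = 0)
    (hfs : ∀ s : ℕ → S, (∀ n, s n ∈ I) →
      ∃ v : ℕ → S, (∀ n, v n ∈ I) ∧ ∀ n, v n = s n + x * v (n + 1)) (n : ℕ) :
    ∃ N, ∀ s ∈ I, x ^ N * s ∈ V n := by
  let J : Set S := {b | ∀ m n, ∃ s ∈ I, b - x ^ m * s ∈ V n}
  -- Step 1
  have step1 : ∀ n, ∃ N, ∀ s ∈ I, ∃ y ∈ V n, x ^ N * s - y ∈ J := by
    by_contra hcon
    push Not at hcon
    obtain ⟨n, hn⟩ := hcon
    choose s hs hs' using hn
    have h1 : ∀ c : ℕ → ℂ, ∃ v : ℕ → S, (∀ n, v n ∈ I) ∧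
        ∀ n, v n = c n • s n + x * v (n + 1) := by
      intro c
      refine hfs (fun n => c n • s n) (fun n => ?_)
      exact Submodule.smul_of_tower_mem I (c n) (hs n)
    choose v hvI hv using h1
    let T : (ℕ → ℂ) →ₗ[ℂ] S :=
      { toFun := fun c => v c 0
        map_add' := by
          intro c d
          refine rec_uniq hx (s := fun n => (c + d) n • s n) (v' := fun n => v c n + v d n)
            (hv (c + d)) (fun n => ?_) 0
          rw [hv c n, hv d n, Pi.add_apply, add_smul]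
          ring
        map_smul' := by
          intro a c
          refine rec_uniq hx (s := fun n => (a • c) n • s n) (v' := fun n => a • v c n)
            (hv (a • c)) (fun n => ?_) 0
          rw [hv c n, Pi.smul_apply, smul_eq_mul, smul_add, smul_smul, mul_smul_comm] }
    have hT : ∀ c, T c = v c 0 := fun c => rfl
    obtain ⟨N, hN⟩ := h.cg T n
    obtain ⟨y, hy, hy'⟩ := hN (Pi.single N 1) (fun i hi => by
      rw [Pi.single_eq_of_ne (by omega)])
    have hTN : T (Pi.single N 1) = x ^ N * s N := by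
      have := rec_uniq hx (s := fun n => (Pi.single N (1 : ℂ) : ℕ → ℂ) n • s n)
        (v := v (Pi.single N 1))
        (v' := fun i => if i ≤ N then x ^ (N - i) * s N else 0) (hv _) (fun i => ?_) 0
      · simpa [hT] using this
      · rcases lt_trichotomy i N with hi | hi | hi
        · rw [if_pos hi.le, if_pos (by omega : i + 1 ≤ N), Pi.single_eq_of_ne (by omega), zero_smul,
            zero_add]
          have : N - i = (N - (i + 1)) + 1 := by omega
          rw [this, pow_succ]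
          ring
        · subst hi
          simp
        · rw [if_neg (by omega), if_neg (by omega), Pi.single_eq_of_ne (by omega)]
          simp
    rw [hTN] at hy'
    refine hs' N y hy ?_
    intro m n'
    obtain ⟨δ, hδ, hsm⟩ := h.sum_small (fun i => x ^ i * s i) m (n' + 1)
    obtain ⟨c', hc', hc2⟩ := hy' m (n' + 1) δ hδ
    refine ⟨v c' m, hvI _ _, ?_⟩
    have h4 := hsm c' hc'
    have h5 := h.sub _ _ h4 _ hc2
    have h6 : ∀ m, T c' = ∑ i ∈ Finset.range m, c' i • (x ^ i * s i) + x ^ m * v c' m := by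
      intro m
      induction m with
      | zero => simp [hT]
      | succ m ih =>
        rw [ih, Finset.sum_range_succ, hv c' m, pow_succ, mul_add, mul_smul_comm]
        ring
    rw [h6 m] at h5
    have e : x ^ N * s N - y - x ^ m * v c' m = ∑ i ∈ Finset.range m, c' i • (x ^ i * s i) -
      (∑ i ∈ Finset.range m, c' i • (x ^ i * s i) + x ^ m * v c' m - (x ^ N * s N - y)) := by ring
    rw [e]
    exact h5
  -- Step 2
  have step2 : ∀ b ∈ J, ∀ n, ∃ b' ∈ J, b - x * b' ∈ V n := by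
    intro b hb n
    obtain ⟨m1, hm1⟩ := h.mul x (n + 1)
    obtain ⟨N, hN⟩ := step1 m1
    obtain ⟨s, hs, hs'⟩ := hb (N + 1) (n + 1)
    obtain ⟨y, hy, hy'⟩ := hN s hs
    refine ⟨_, hy', ?_⟩
    have := h.add _ _ hs' _ (hm1 y hy)
    have e : b - x * (x ^ N * s - y) = b - x ^ (N + 1) * s + x * y := by rw [pow_succ]; ring
    rwa [e]
  -- Step 3
  have step3 : ∀ b ∈ J, b = 0 := by
    intro b hb
    apply h.haus
    intro k
    have h1 : ∀ i : ℕ, ∀ b ∈ J, ∃ b' ∈ J, ∀ j ≤ i, x ^ j * (b - x * b') ∈ V (k + i + 2) := by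
      intro i b hb
      obtain ⟨m, hm⟩ := h.mul_fin x (k + i + 2) i
      obtain ⟨b', hb', h2⟩ := step2 b hb m
      exact ⟨b', hb', hm _ h2⟩
    choose f hfJ hf using h1
    let seq : ℕ → {b : S // b ∈ J} := fun i =>
      Nat.rec ⟨b, hb⟩ (fun i y => ⟨f i y.1 y.2, hfJ i y.1 y.2⟩) i
    have hseq : ∀ i, ∀ j ≤ i, x ^ j * ((seq i).1 - x * (seq (i + 1)).1) ∈ V (k + i + 2) :=
      fun i j hj => hf i (seq i).1 (seq i).2 j hj
    obtain ⟨r, hr, hr'⟩ := h.series x (fun i => (seq i).1 - x * (seq (i + 1)).1) k hseq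
    have h2 := rec_uniq hx (s := fun i => (seq i).1 - x * (seq (i + 1)).1)
      (v := r) (v' := fun i => (seq i).1) hr (fun i => by simp) 0
    have h3 : (seq 0).1 = b := rfl
    rw [h3] at h2
    rw [← h2]
    exact hr' 0
  obtain ⟨N, hN⟩ := step1 n
  refine ⟨N, fun s hs => ?_⟩
  obtain ⟨y, hy, hy'⟩ := hN s hs
  have := step3 _ hy'
  rw [sub_eq_zero] at this
  rwa [this]

end Alg

end Pool.Agent.Helper68_FAlg
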