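import Mathlib
import Pool.Agent.Helper68_FAlg.FB

/-!
Uniqueness of the (F)-algebra topology for (F)-algebras of power series in finitely many
indeterminates.
-/

set_option autoImplicit false
open TopologicalSpace Filter Topology Set

namespace Pool.Agent.Helper68_FAlg

section PS

variable {k : ℕ}

/-- The `N`-th tail in the variable `i`. -/
noncomputable def tail (i : Fin k) (N : ℕ) (g : MvPowerSeries (Fin k) ℂ) :
    MvPowerSeries (Fin k) ℂ :=
  fun J => MvPowerSeries.coeff (J + Finsupp.single i N) g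

/-- The `N`-th slice in the variable `i`. -/
noncomputable def slice (i : Fin k) (N : ℕ) (g : MvPowerSeries (Fin k) ℂ) :
    MvPowerSeries (Fin k) ℂ :=
  fun J => if J i = 0 then MvPowerSeries.coeff (J + Finsupp.single i N) g else 0

theorem coeff_tail (i : Fin k) (N : ℕ) (g : MvPowerSeries (Fin k) ℂ) (J : Fin k →₀ ℕ) :
    MvPowerSeries.coeff J (tail i N g) = MvPowerSeries.coeff (J + Finsupp.single i N) g := rfl

theorem coeff_slice (i : Fin k) (N : ℕ) (g : MvPowerSeries (Fin k) ℂ) (J : Fin k →₀ ℕ) :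
    MvPowerSeries.coeff J (slice i N g) =
      if J i = 0 then MvPowerSeries.coeff (J + Finsupp.single i N) g else 0 := rfl

theorem tail_eq (i : Fin k) (N : ℕ) (g : MvPowerSeries (Fin k) ℂ) :
    tail i N g = slice i N g + MvPowerSeries.X i * tail i (N + 1) g := by
  ext J
  rw [map_add, coeff_tail, coeff_slice, MvPowerSeries.X_def, MvPowerSeries.coeff_monomial_mul,
    coeff_tail]
  by_cases hJ : J i = 0
  · rw [if_pos hJ, if_neg, add_zero]
    intro hle
    have := hle i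
    simp [hJ] at this
  · rw [if_neg hJ, if_pos, zero_add, one_mul]
    · congr 2
      ext l
      by_cases hl : l = i
      · subst hl
        simp only [Finsupp.coe_add, Finsupp.coe_tsub, Pi.add_apply, Pi.sub_apply,
          Finsupp.single_eq_same]
        omega
      · simp [Finsupp.single_eq_of_ne hl]
    · rw [Finsupp.single_le_iff]
      omega

theorem tail_zero (i : Fin k) (g : MvPowerSeries (Fin k) ℂ) : tail i 0 g = g := by
  ext J
  rw [coeff_tail]
  simp

/-- `g` only involves variables with index `< j`. -/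
def Supp (j : ℕ) (g : MvPowerSeries (Fin k) ℂ) : Prop :=
  ∀ J : Fin k →₀ ℕ, MvPowerSeries.coeff J g ≠ 0 → ∀ l : Fin k, j ≤ l.1 → J l = 0

theorem supp_slice (i : Fin k) (N : ℕ) (g : MvPowerSeries (Fin k) ℂ) (hg : Supp (i.1 + 1) g) :
    Supp i.1 (slice i N g) := by
  intro J hJ l hl
  rw [coeff_slice] at hJ
  by_cases hJi : J i = 0
  · rw [if_pos hJi] at hJ
    rcases Nat.lt_or_ge i.1 l.1 with h | h
    · have := hg _ hJ l h
      simp only [Finsupp.coe_add, Pi.add_apply] at this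
      omega
    · have : l = i := Fin.ext (by omega)
      rw [this]
      exact hJi
  · rw [if_neg hJi] at hJ
    exact absurd rfl hJ

theorem supp_zero (g : MvPowerSeries (Fin k) ℂ) (hg : Supp 0 g) :
    g = MvPowerSeries.C (MvPowerSeries.coeff 0 g) := by
  ext J
  rw [MvPowerSeries.coeff_C]
  by_cases hJ : J = 0
  · rw [if_pos hJ, hJ]
  · rw [if_neg hJ]
    by_contra hne
    apply hJ
    ext l
    exact hg J hne l (Nat.zero_le _)

theorem X_pow_dvd_all {i : Fin k} {g : MvPowerSeries (Fin k) ℂ}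
    (h : ∀ m, (MvPowerSeries.X i : MvPowerSeries (Fin k) ℂ) ^ m ∣ g) : g = 0 := by
  ext J
  have := MvPowerSeries.X_pow_dvd_iff.mp (h (J i + 1)) J (by omega)
  rw [this]
  simp

variable (S : Subalgebra ℂ (MvPowerSeries (Fin k) ℂ))
  (hS : ∀ p : MvPolynomial (Fin k) ℂ, (p : MvPowerSeries (Fin k) ℂ) ∈ S)

/-- The variable `X i` as an element of `S`. -/
noncomputable def xS (i : Fin k) : S :=
  ⟨MvPowerSeries.X i, by simpa using hS (MvPolynomial.X i)⟩

theorem xS_haus (i : Fin k) (y : S) (h : ∀ m, xS S hS i ^ m ∣ y) : y = 0 := by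
  have : (y : MvPowerSeries (Fin k) ℂ) = 0 := by
    apply X_pow_dvd_all (i := i)
    intro m
    obtain ⟨c, hc⟩ := h m
    refine ⟨c, ?_⟩
    rw [hc]
    simp [xS]
  exact_mod_cast this

theorem X_rec_eq {i : Fin k} {a b : ℕ → MvPowerSeries (Fin k) ℂ}
    {s : ℕ → MvPowerSeries (Fin k) ℂ}
    (ha : ∀ n, a n = s n + MvPowerSeries.X i * a (n + 1))
    (hb : ∀ n, b n = s n + MvPowerSeries.X i * b (n + 1)) (n : ℕ) : a n = b n :=
  rec_uniq (x := (MvPowerSeries.X i : MvPowerSeries (Fin k) ℂ))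
    (fun _ hy => X_pow_dvd_all hy) ha hb n

/-- An ideal `I` of `S` with the formal sum property for every variable is a module over all
power series. -/
theorem smul_mem_aux (I : Ideal S)
    (hfs : ∀ i : Fin k, ∀ s : ℕ → S, (∀ n, s n ∈ I) →
      ∃ v : ℕ → S, (∀ n, v n ∈ I) ∧ ∀ n, v n = s n + xS S hS i * v (n + 1)) (j : ℕ) (hj : j ≤ k) :
    ∀ g : MvPowerSeries (Fin k) ℂ, Supp j g → ∀ f ∈ I,
      ∃ h ∈ I, (h : MvPowerSeries (Fin k) ℂ) = g * f := by
  induction j with
  | zero =>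
    intro g hg f hf
    refine ⟨(MvPowerSeries.coeff 0 g : ℂ) • f, Submodule.smul_of_tower_mem I _ hf, ?_⟩
    conv_rhs => rw [supp_zero g hg]
    rw [← MvPowerSeries.smul_eq_C_mul]
    rfl
  | succ j ih =>
    intro g hg f hf
    set i : Fin k := ⟨j, hj⟩ with hi
    have h1 : ∀ N, ∃ h ∈ I, (h : MvPowerSeries (Fin k) ℂ) = slice i N g * f := fun N =>
      ih (by omega) _ (supp_slice i N g hg) f hf
    choose s hs hs' using h1
    obtain ⟨v, hv, hv'⟩ := hfs i s hs
    refine ⟨v 0, hv 0, ?_⟩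
    have h2 := X_rec_eq (i := i) (a := fun n => (v n : MvPowerSeries (Fin k) ℂ))
      (b := fun n => tail i n g * (f : MvPowerSeries (Fin k) ℂ))
      (s := fun n => slice i n g * (f : MvPowerSeries (Fin k) ℂ)) (fun n => ?_) (fun n => ?_) 0
    · simpa [tail_zero] using h2
    · have := congrArg (fun z : S => (z : MvPowerSeries (Fin k) ℂ)) (hv' n)
      simp only [xS] at this
      push_cast at this
      rw [hs' n] at this
      exact this
    · change tail i n g * (f : MvPowerSeries (Fin k) ℂ) = slice i n g * (f : MvPowerSeries (Fin k) ℂ)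
        + MvPowerSeries.X i * (tail i (n + 1) g * (f : MvPowerSeries (Fin k) ℂ))
      rw [tail_eq i n g]
      ring

theorem supp_top (g : MvPowerSeries (Fin k) ℂ) : Supp k g := fun _ _ l hl =>
  absurd l.2 (by omega)

/-- Eventually small sequences. -/
def EvSmall {S : Type*} (V : ℕ → Set S) (h : ℕ → S) : Prop :=
  ∀ n, ∃ P, ∀ p ≥ P, h p ∈ V n

theorem EvSmall.add {S : Type*} [CommRing S] [Algebra ℂ S] {V : ℕ → Set S} (hV : FB V)
    {h h' : ℕ → S} (h1 : EvSmall V h) (h2 : EvSmall V h') : EvSmall V (fun p => h p + h' p) := by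
  intro n
  obtain ⟨P, hP⟩ := h1 (n + 1)
  obtain ⟨P', hP'⟩ := h2 (n + 1)
  exact ⟨max P P', fun p hp => hV.add n _ (hP p (le_trans (le_max_left _ _) hp)) _
    (hP' p (le_trans (le_max_right _ _) hp))⟩

theorem EvSmall.mul {S : Type*} [CommRing S] [Algebra ℂ S] {V : ℕ → Set S} (hV : FB V)
    {h : ℕ → S} (h1 : EvSmall V h) (a : S) : EvSmall V (fun p => a * h p) := by
  intro n
  obtain ⟨m, hm⟩ := hV.mul a n
  obtain ⟨P, hP⟩ := h1 m
  exact ⟨P, fun p hp => hm _ (hP p hp)⟩

theorem EvSmall.sum {S : Type*} [CommRing S] [Algebra ℂ S] {V : ℕ → Set S} (hV : FB V)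
    {h : ℕ → ℕ → S} (h1 : ∀ m, EvSmall V (h m)) (N : ℕ) :
    EvSmall V (fun p => ∑ m ∈ Finset.range N, h m p) := by
  induction N with
  | zero => exact fun n => ⟨0, fun p _ => by simpa using hV.zero n⟩
  | succ N ih =>
    simp only [Finset.sum_range_succ]
    exact EvSmall.add hV ih (h1 N)

theorem cont_aux {V : ℕ → Set S} (hV : FB V) (I : Ideal S)
    (hmod : ∀ g : MvPowerSeries (Fin k) ℂ, ∀ f ∈ I,
      ∃ h ∈ I, (h : MvPowerSeries (Fin k) ℂ) = g * f)
    (hmain : ∀ i : Fin k, ∀ n, ∃ N, ∀ s ∈ I, xS S hS i ^ N * s ∈ V n) (j : ℕ) (hj : j ≤ k) :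
    ∀ g : ℕ → MvPowerSeries (Fin k) ℂ, (∀ p, Supp j (g p)) →
      (∀ J, Tendsto (fun p => MvPowerSeries.coeff J (g p)) atTop (𝓝 0)) → ∀ f ∈ I,
      ∀ h : ℕ → S, (∀ p, (h p : MvPowerSeries (Fin k) ℂ) = g p * f) → EvSmall V h := by
  induction j with
  | zero =>
    intro g hg hg0 f hf h hh n
    obtain ⟨δ, hδ, hs⟩ := hV.smul f n
    obtain ⟨P, hP⟩ := (Metric.tendsto_atTop.mp (hg0 0)) δ hδ
    refine ⟨P, fun p hp => ?_⟩
    have e : h p = (MvPowerSeries.coeff 0 (g p) : ℂ) • f := by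
      apply Subtype.ext
      rw [hh p]
      conv_lhs => rw [supp_zero (g p) (hg p)]
      rw [← MvPowerSeries.smul_eq_C_mul]
      rfl
    rw [e]
    apply hs
    have := hP p hp
    simpa using this
  | succ j ih =>
    intro g hg hg0 f hf h hh n
    set i : Fin k := ⟨j, hj⟩ with hi
    have h1 : ∀ N p, ∃ h ∈ I, (h : MvPowerSeries (Fin k) ℂ) = slice i N (g p) * f := fun N p =>
      hmod _ f hf
    have h2 : ∀ N p, ∃ h ∈ I, (h : MvPowerSeries (Fin k) ℂ) = tail i N (g p) * f := fun N p =>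
      hmod _ f hf
    choose s hs hs' using h1
    choose t ht ht' using h2
    have hev : ∀ N, EvSmall V (s N) := by
      intro N
      refine ih (by omega) (fun p => slice i N (g p)) (fun p => supp_slice i N _ (hg p)) ?_ f hf
        (s N) (hs' N)
      intro J
      simp only [coeff_slice]
      by_cases hJ : J i = 0
      · simp only [if_pos hJ]
        exact hg0 _
      · simp only [if_neg hJ]
        exact tendsto_const_nhds
    have hrec : ∀ N p, t N p = s N p + xS S hS i * t (N + 1) p := by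
      intro N p
      apply Subtype.ext
      push_cast
      rw [ht', hs', ht', tail_eq i N (g p)]
      simp only [xS]
      ring
    have hsum : ∀ N p, h p = ∑ m ∈ Finset.range N, xS S hS i ^ m * s m p
        + xS S hS i ^ N * t N p := by
      intro N p
      induction N with
      | zero =>
        simp only [Finset.range_zero, Finset.sum_empty, pow_zero, one_mul, zero_add]
        apply Subtype.ext
        rw [hh, ht', tail_zero]
      | succ N ihN =>
        rw [ihN, Finset.sum_range_succ, hrec N p, pow_succ]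
        ring
    obtain ⟨N, hN⟩ := hmain i (n + 1)
    obtain ⟨P, hP⟩ := EvSmall.sum hV (h := fun m p => xS S hS i ^ m * s m p)
      (fun m => EvSmall.mul hV (hev m) _) N (n + 1)
    refine ⟨P, fun p hp => ?_⟩
    rw [hsum N p]
    exact hV.add n _ (hP p hp) _ (hN _ (ht N p))

include hS in
/-- The separating ideal of two (F)-algebra topologies vanishes. -/
theorem sp_eq_zero {V1 V2 : ℕ → Set S} (h1 : FB V1) (h2 : FB V2)
    (hc : ∀ J : Fin k →₀ ℕ, ∀ δ > (0 : ℝ), ∃ n, ∀ a ∈ V1 n,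
      ‖MvPowerSeries.coeff J (a : MvPowerSeries (Fin k) ℂ)‖ < δ)
    (f : S) (hf : f ∈ Sp h1 h2) : f = 0 := by
  have hfs : ∀ i : Fin k, ∀ s : ℕ → S, (∀ n, s n ∈ Sp h1 h2) →
      ∃ v : ℕ → S, (∀ n, v n ∈ Sp h1 h2) ∧ ∀ n, v n = s n + xS S hS i * v (n + 1) :=
    fun i s hs => fs h1 h2 (xS_haus S hS i) s hs
  have hmod : ∀ g : MvPowerSeries (Fin k) ℂ, ∀ f ∈ Sp h1 h2,
      ∃ h ∈ Sp h1 h2, (h : MvPowerSeries (Fin k) ℂ) = g * f := fun g f hf =>
    smul_mem_aux S hS (Sp h1 h2) hfs k le_rfl g (supp_top g) f hf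
  have hmain : ∀ i : Fin k, ∀ n, ∃ N, ∀ s ∈ Sp h1 h2, xS S hS i ^ N * s ∈ V2 n := fun i n =>
    h2.main (Sp h1 h2) (xS_haus S hS i) (hfs i) n
  have ha : ∀ p, ∃ a ∈ V2 p, a - f ∈ V1 p := fun p => hf p p
  choose a ha2 ha1 using ha
  have hg0 : ∀ J, Tendsto (fun p => MvPowerSeries.coeff J
      ((a p - f : S) : MvPowerSeries (Fin k) ℂ)) atTop (𝓝 0) := by
    intro J
    rw [Metric.tendsto_atTop]
    intro δ hδ
    obtain ⟨n, hn⟩ := hc J δ hδ
    refine ⟨n, fun p hp => ?_⟩
    have := hn _ (h1.anti n p hp (ha1 p))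
    simpa using this
  have hev : EvSmall V2 (fun p => (a p - f) * f) :=
    cont_aux S hS h2 (Sp h1 h2) hmod hmain k le_rfl
      (fun p => ((a p - f : S) : MvPowerSeries (Fin k) ℂ))
      (fun p => supp_top _) hg0 f hf (fun p => (a p - f) * f) (fun p => by simp)
  have hev2 : EvSmall V2 (fun p => a p) := fun n => ⟨n, fun p hp => h2.anti n p hp (ha2 p)⟩
  have hev3 : EvSmall V2 (fun p => f * a p) := EvSmall.mul h2 hev2 f
  have hff : f * f = 0 := by
    apply h2.haus
    intro n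
    obtain ⟨P, hP⟩ := hev (n + 1)
    obtain ⟨P', hP'⟩ := hev3 (n + 1)
    have h3 := h2.sub n _ (hP' (max P P') (le_max_right _ _)) _ (hP (max P P') (le_max_left _ _))
    have e : f * a (max P P') - (a (max P P') - f) * f = f * f := by ring
    rwa [e] at h3
  exact mul_self_eq_zero.mp hff

end PS

theorem contSMulReal {S : Type*} [AddCommGroup S] [Module ℂ S] [TopologicalSpace S]
    [ContinuousSMul ℂ S] : ContinuousSMul ℝ S := by
  constructor
  have h1 : Continuous (fun p : ℝ × S => ((p.1 : ℂ)) • p.2) :=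
    (Complex.continuous_ofReal.comp continuous_fst).smul continuous_snd
  exact h1

/-- Continuity of the identity in both directions. -/
theorem id_continuous {k : ℕ} (S : Subalgebra ℂ (MvPowerSeries (Fin k) ℂ))
    (hS : ∀ p : MvPolynomial (Fin k) ℂ, (p : MvPowerSeries (Fin k) ℂ) ∈ S)
    (t₁ t₂ : TopologicalSpace S)
    (hr1 : @IsTopologicalRing S t₁ _)
    (hs1 : @ContinuousSMul ℂ S _ _ t₁)
    (hm1 : @TopologicalSpace.IsCompletelyMetrizableSpace S t₁)
    (hc : ∀ n : Fin k →₀ ℕ,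
      @Continuous S ℂ t₁ _ (fun a => MvPowerSeries.coeff n (a : MvPowerSeries (Fin k) ℂ)))
    (hr2 : @IsTopologicalRing S t₂ _)
    (hs2 : @ContinuousSMul ℂ S _ _ t₂)
    (hm2 : @TopologicalSpace.IsCompletelyMetrizableSpace S t₂) :
    t₂ ≤ t₁ ∧ t₁ ≤ t₂ := by
  obtain ⟨V1, hV1⟩ : ∃ V : ℕ → Set S, @SymBasis S _ t₁ V := @exists_symBasis S _ t₁ _ _
  obtain ⟨V2, hV2⟩ : ∃ V : ℕ → Set S, @SymBasis S _ t₂ V := @exists_symBasis S _ t₂ _ _
  have h1 : FB V1 := @SymBasis.toFB S _ _ t₁ hr1 hs1 hm1 V1 hV1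
  have h2 : FB V2 := @SymBasis.toFB S _ _ t₂ hr2 hs2 hm2 V2 hV2
  have hz : ∀ f : S, f ∈ Sp h1 h2 → f = 0 := sp_eq_zero S hS h1 h2 (by
    intro J δ hδ
    have h3 : Tendsto (fun a : S => MvPowerSeries.coeff J (a : MvPowerSeries (Fin k) ℂ))
        (@nhds S t₁ 0) (𝓝 0) := by
      have := (@Continuous.tendsto S ℂ t₁ _ _ (hc J) 0)
      simpa using this
    have h4 := h3.eventually_mem (Metric.ball_mem_nhds 0 hδ)
    obtain ⟨n, hn⟩ := @SymBasis.exists_subset S _ t₁ _ V1 hV1 _ h4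
    refine ⟨n, fun a ha => ?_⟩
    have := hn ha
    simpa using this)
  have hsm1 : @ContinuousSMul ℝ S _ _ t₁ := @contSMulReal S _ _ t₁ hs1
  have hsm2 : @ContinuousSMul ℝ S _ _ t₂ := @contSMulReal S _ _ t₂ hs2
  constructor
  · have h7 := @continuous_of_sep_zero S S _ _ t₂ _ hsm2 _ _ _ _ t₁ _ hsm1 _ LinearMap.id (by
      intro s hs
      apply hz
      intro n m
      obtain ⟨a, ha, ha'⟩ := hs (V2 n) (@SymBasis.mem_nhds S _ t₂ _ V2 hV2 n) (V1 m)
        (@SymBasis.mem_nhds S _ t₁ _ V1 hV1 m)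
      exact ⟨a, ha, ha'⟩)
    exact continuous_id_iff_le.mp h7
  · have h7 := @continuous_of_sep_zero S S _ _ t₁ _ hsm1 _ _ _ _ t₂ _ hsm2 _ LinearMap.id (by
      intro s hs
      apply hz
      intro n m
      obtain ⟨b, hb, hb'⟩ := hs (V1 m) (@SymBasis.mem_nhds S _ t₁ _ V1 hV1 m) (V2 n)
        (@SymBasis.mem_nhds S _ t₂ _ V2 hV2 n)
      refine ⟨s - b, ?_, ?_⟩
      · have := h2.neg _ _ hb'
        simpa using this
      · have := h1.neg _ _ hb
        simpa using this)
    exact continuous_id_iff_le.mp h7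

end Pool.Agent.Helper68_FAlg
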